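import Pool.Agent.Helper70.RC.Goals

/-!
# Project TW (MP_c7dfba_nt), part RC: packet GERM
-/

namespace Pool.Agent.Helper59.RC

open Polynomial

universe u

/-- real polynomials of odd degree have roots -/
theorem real_odd_root {P : ℝ[X]} (hP : Odd P.natDegree) : ∃ x, P.IsRoot x := by
  by_contra hno
  have hno' : ∀ y, ¬ P.IsRoot y := fun y hy => hno ⟨y, hy⟩
  have hodd : ((Int.negOnePow P.natDegree : ℤˣ) : ℝ) = -1 := by
    rw [Int.negOnePow_odd _ (by exact_mod_cast hP)]
    norm_num
  rcases le_total 0 P.leadingCoeff with h | h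
  · have h1 := zero_lt_eval_of_roots_lt_of_leadingCoeff_nonneg (x := 0) (fun y hy => absurd hy (hno' y)) h
    have h2 := zero_lt_negOnePow_mul_eval_of_lt_roots_of_leadingCoeff_nonneg (x := 0)
      (fun y hy => absurd hy (hno' y)) h
    rw [hodd] at h2
    linarith
  · have h1 := eval_lt_zero_of_roots_lt_of_leadingCoeff_nonpos (x := 0) (fun y hy => absurd hy (hno' y)) h
    have h2 := negOnePow_mul_eval_lt_zero_of_lt_roots_of_leadingCoeff_nonpos (x := 0)
      (fun y hy => absurd hy (hno' y)) h
    rw [hodd] at h2
    linarith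

theorem germ : Pool.Agent.Helper70.RC.GERM.{u} := by
  intro I U
  refine IsRealClosed.of_linearOrderedField ?_ ?_
  · intro x
    induction x using Filter.Germ.inductionOn with
    | h f =>
      intro hf
      rw [Filter.Germ.coe_nonneg] at hf
      refine ⟨((fun i => Real.sqrt (f i) : I → ℝ) : (U : Filter I).Germ ℝ), ?_⟩
      rw [← Filter.Germ.coe_mul, Filter.Germ.coe_eq]
      filter_upwards [hf] with i hi
      exact (Real.mul_self_sqrt hi).symm
  · intro F hF
    have hex : ∀ j, ∃ c : I → ℝ, (c : (U : Filter I).Germ ℝ) = F.coeff j := fun j => by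
      induction F.coeff j using Filter.Germ.inductionOn with
      | h f => exact ⟨f, rfl⟩
    choose c hc using hex
    have hF0 : F ≠ 0 := by
      rintro rfl
      simp at hF
    have hlead : F.coeff F.natDegree ≠ 0 := by
      rw [coeff_natDegree]; exact leadingCoeff_ne_zero.mpr hF0
    have hev : ∀ᶠ i in (U : Filter I), c F.natDegree i ≠ 0 := by
      rw [Ultrafilter.eventually_not]
      intro h
      apply hlead
      rw [← hc, ← Filter.Germ.coe_zero, Filter.Germ.coe_eq]
      exact h
    obtain ⟨P, hP⟩ : ∃ P : I → ℝ[X], P = fun i => ∑ j ∈ Finset.range (F.natDegree + 1), C (c j i) * X ^ j := ⟨_, rfl⟩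
    have hroot : ∀ i, ∃ x : ℝ, c F.natDegree i ≠ 0 → (P i).eval x = 0 := by
      intro i
      by_cases h : c F.natDegree i = 0
      · exact ⟨0, fun h' => absurd h h'⟩
      · have hdeg : (P i).natDegree = F.natDegree := by
          apply le_antisymm
          · rw [hP]
            exact natDegree_sum_le_of_forall_le _ _ fun j hj => by
              refine (natDegree_C_mul_X_pow_le _ _).trans ?_
              have := Finset.mem_range.mp hj; omega
          · apply le_natDegree_of_ne_zero
            rw [hP]
            simp only [finsetSum_coeff, coeff_C_mul, coeff_X_pow, mul_ite, mul_one, mul_zero,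
              Finset.sum_ite_eq, Finset.mem_range]
            rw [if_pos (Nat.lt_succ_self _)]
            exact h
        obtain ⟨x, hx⟩ := real_odd_root (P := P i) (by rw [hdeg]; exact hF)
        exact ⟨x, fun _ => hx⟩
    choose x hx using hroot
    refine ⟨(x : (U : Filter I).Germ ℝ), ?_⟩
    rw [IsRoot.def, eval_eq_sum_range]
    have h1 : ∑ j ∈ Finset.range (F.natDegree + 1), F.coeff j * (x : (U : Filter I).Germ ℝ) ^ j =
        Filter.Germ.coeRingHom (U : Filter I) (∑ j ∈ Finset.range (F.natDegree + 1), c j * x ^ j) := by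
      rw [map_sum]
      refine Finset.sum_congr rfl fun j _ => ?_
      rw [map_mul, map_pow, ← hc]
      rfl
    rw [h1]
    change ((∑ j ∈ Finset.range (F.natDegree + 1), c j * x ^ j : I → ℝ) : (U : Filter I).Germ ℝ) = 0
    rw [← Filter.Germ.coe_zero, Filter.Germ.coe_eq]
    filter_upwards [hev] with i hi
    have := hx i hi
    rw [hP] at this
    simp only [eval_finsetSum, eval_mul, eval_C, eval_pow, eval_X] at this
    simp only [Finset.sum_apply, Pi.mul_apply, Pi.pow_apply, Pi.zero_apply]
    exact this

end Pool.Agent.Helper59.RC
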